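import Mathlib
import Pool.Agent.Helper23.KU.ZDefs

/-!
# KU, stage Z2: a combination with vanishing real part makes `A` rational
-/

set_option autoImplicit false

namespace Pool.Agent.Helper23.KU

open Polynomial Metric Set

theorem comb_rat {A : ℂ → ℂ} {n : ℕ} {Bs : Fin n → ℂ → ℂ} {Ps : Fin n → ℂ[X]}
    (hBd : ∀ i, DifferentiableOn ℂ (Bs i) (ball 0 1))
    (hB : ∀ i, ∀ z ∈ ball (0 : ℂ) 1, z ^ (i.1 + 1) * Bs i z =
      (z ^ (2 * (i.1 + 1)) + 1) * A z + (Ps i).eval z) {x : Fin n → ℝ} (hx : x ≠ 0)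
    (hre : ∀ z ∈ ball (0 : ℂ) 1, (∑ i, (x i : ℂ) * Bs i z).re = 0) :
    ∃ p q : ℂ[X], p ≠ 0 ∧ ∀ z ∈ ball (0 : ℂ) 1, p.eval z * A z = q.eval z := by
  -- the combination is a constant
  have hd : DifferentiableOn ℂ (fun z => ∑ i, (x i : ℂ) * Bs i z) (ball 0 1) :=
    DifferentiableOn.fun_sum fun i _ => (hBd i).const_mul _
  obtain ⟨κ, hκ⟩ := AnalyticOnNhd.eq_const_of_re_eq_const (hd.analyticOnNhd isOpen_ball)
    hre isOpen_ball ⟨⟨0, mem_ball_self one_pos⟩, (convex_ball (0 : ℂ) 1).isPreconnected⟩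
  obtain ⟨i₀, hi₀⟩ := Function.ne_iff.1 hx
  refine ⟨∑ i, C (x i : ℂ) * (X ^ (n + (i.1 + 1)) + X ^ (n - (i.1 + 1))),
    C κ * X ^ n - ∑ i, C (x i : ℂ) * X ^ (n - (i.1 + 1)) * Ps i, ?_, ?_⟩
  · intro h0
    have h1 := congrArg (fun p : ℂ[X] => p.coeff (n + (i₀.1 + 1))) h0
    simp only [finsetSum_coeff, coeff_C_mul, coeff_add, coeff_X_pow, coeff_zero] at h1
    rw [Finset.sum_eq_single i₀] at h1
    · have h2 : ¬ n + (i₀.1 + 1) = n - (i₀.1 + 1) := by omega
      rw [if_pos rfl, if_neg h2, add_zero, mul_one] at h1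
      exact hi₀ (by exact_mod_cast h1)
    · intro i _ hi
      have h2 : ¬ n + (i₀.1 + 1) = n + (i.1 + 1) := by
        intro h3
        exact hi (Fin.ext (by omega))
      have h3 : ¬ n + (i₀.1 + 1) = n - (i.1 + 1) := by omega
      rw [if_neg h2, if_neg h3, add_zero, mul_zero]
    · intro h
      exact absurd (Finset.mem_univ i₀) h
  · intro z hz
    have e1 : ∑ i, (x i : ℂ) * Bs i z = κ := hκ z hz
    have e2 : z ^ n * κ = ∑ i, (x i : ℂ) * (z ^ (n + (i.1 + 1)) + z ^ (n - (i.1 + 1))) * A z +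
        ∑ i, (x i : ℂ) * z ^ (n - (i.1 + 1)) * (Ps i).eval z := by
      rw [← e1, Finset.mul_sum, ← Finset.sum_add_distrib]
      refine Finset.sum_congr rfl fun i _ => ?_
      have e3 : z ^ n = z ^ (n - (i.1 + 1)) * z ^ (i.1 + 1) := by
        rw [← pow_add]
        congr 1
        have := i.2
        omega
      have e4 : z ^ (n + (i.1 + 1)) = z ^ (n - (i.1 + 1)) * z ^ (2 * (i.1 + 1)) := by
        rw [← pow_add]
        congr 1
        have := i.2
        omega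
      rw [e4]
      calc z ^ n * ((x i : ℂ) * Bs i z)
          = (x i : ℂ) * z ^ (n - (i.1 + 1)) * (z ^ (i.1 + 1) * Bs i z) := by rw [e3]; ring
        _ = _ := by rw [hB i z hz]; ring
    simp only [eval_finsetSum, eval_mul, eval_sub, eval_add, eval_C, eval_pow, eval_X]
    rw [Finset.sum_mul, mul_comm κ, e2]
    ring

end Pool.Agent.Helper23.KU
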